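import Pool.Agent.Helper71.AG2.Goals

/-!
# Project AG+, packet PNH: p-elements centralize V (adapted from Helper91/AG/PNH.lean)
-/

set_option autoImplicit false

namespace Pool.Agent.Helper12.AG2

universe u

theorem pnh : Pool.Agent.Helper71.AG2.PnhStmt.{u} := by
  intro G _ _ p hp hG V _ hV g
  obtain ⟨i, m, hm, hi⟩ := Nat.exists_eq_pow_mul_and_not_dvd (orderOf_pos g).ne' p hp.ne_one
  have hm0 : 0 < m := by
    rcases Nat.eq_zero_or_pos m with h | h
    · exact absurd (h ▸ dvd_zero p) hm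
    · exact h
  refine ⟨m, hm, hm0, fun v hv => ?_⟩
  have hpow : (g ^ m) ^ p ^ i = 1 := by
    rw [← pow_mul, mul_comm, ← hi, pow_orderOf_eq_one]
  have hz : IsPGroup p (Subgroup.zpowers (g ^ m)) := by
    rintro ⟨x, n, rfl⟩
    refine ⟨i, Subtype.ext ?_⟩
    change ((g ^ m) ^ n) ^ p ^ i = 1
    rw [← zpow_natCast, ← zpow_mul, mul_comm, zpow_mul, zpow_natCast, hpow, one_zpow]
  have hsup : IsPGroup p (Subgroup.zpowers (g ^ m) ⊔ V : Subgroup G) :=
    IsPGroup.to_sup_of_normal_right hz hV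
  exact hG _ hsup (g ^ m) (Subgroup.mem_sup_left (Subgroup.mem_zpowers _)) v
    (Subgroup.mem_sup_right hv)

end Pool.Agent.Helper12.AG2
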